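import Pool.Agent.H5.DPG.Stmts

/-!
# Row CDN of the board dpg: the graphs which are not dense
-/

set_option autoImplicit false

namespace Pool.DPG

theorem cdn_exp {l k : ℕ} (h : 4 * l ≤ k) : 9 * l * k + 12 * l * l ≤ 3 * k * k := by
  obtain ⟨j, rfl⟩ := Nat.exists_eq_add_of_le h
  nlinarith [Nat.zero_le (l * j), Nat.zero_le (j * j)]

theorem cdn_pairs {n l k : ℕ} (hn : n < 2 ^ l) :
    (Finset.powersetCard k (Finset.univ : Finset (Fin n)) ×ˢ
      Finset.powersetCard (8 * k) (Finset.univ : Finset (Fin n))).card ≤ 2 ^ (9 * l * k) := by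
  rw [Finset.card_product, Finset.card_powersetCard, Finset.card_powersetCard, Finset.card_univ,
    Fintype.card_fin]
  calc n.choose k * n.choose (8 * k) ≤ n ^ k * n ^ (8 * k) :=
        Nat.mul_le_mul (Nat.choose_le_pow n k) (Nat.choose_le_pow n (8 * k))
    _ ≤ (2 ^ l) ^ k * (2 ^ l) ^ (8 * k) :=
        Nat.mul_le_mul (Nat.pow_le_pow_left hn.le _) (Nat.pow_le_pow_left hn.le _)
    _ = 2 ^ (9 * l * k) := by
        rw [← pow_add, ← pow_mul]
        congr 1
        ring

theorem cdn_count {n l k : ℕ} (hk : 4 * l ≤ k) (hn : n < 2 ^ l)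
    (bad : Finset (Fin n) → Finset (Fin n) → Finset (Fin n → Fin n → Bool))
    (hbad : ∀ A B, A.card = k → B.card = 8 * k → 2 ^ (3 * k * k) * (bad A B).card ≤ 2 ^ (n * n)) :
    2 ^ (12 * l * l) * ∑ x ∈ Finset.powersetCard k (Finset.univ : Finset (Fin n)) ×ˢ
      Finset.powersetCard (8 * k) (Finset.univ : Finset (Fin n)), (bad x.1 x.2).card ≤
      2 ^ (n * n) := by
  set T := Finset.powersetCard k (Finset.univ : Finset (Fin n)) ×ˢ
      Finset.powersetCard (8 * k) (Finset.univ : Finset (Fin n)) with hT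
  have h1 : 2 ^ (3 * k * k) * ∑ x ∈ T, (bad x.1 x.2).card ≤ 2 ^ (9 * l * k) * 2 ^ (n * n) := by
    rw [Finset.mul_sum]
    calc ∑ x ∈ T, 2 ^ (3 * k * k) * (bad x.1 x.2).card ≤ ∑ x ∈ T, 2 ^ (n * n) :=
          Finset.sum_le_sum fun x hx => by
            rw [hT, Finset.mem_product, Finset.mem_powersetCard, Finset.mem_powersetCard] at hx
            exact hbad x.1 x.2 hx.1.2 hx.2.2
      _ = T.card * 2 ^ (n * n) := by rw [Finset.sum_const, smul_eq_mul]
      _ ≤ 2 ^ (9 * l * k) * 2 ^ (n * n) := Nat.mul_le_mul_right _ (cdn_pairs hn)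
  have h2 : 2 ^ (9 * l * k) * 2 ^ (12 * l * l) ≤ 2 ^ (3 * k * k) := by
    rw [← pow_add]
    exact Nat.pow_le_pow_right (by norm_num) (cdn_exp hk)
  have h3 : 2 ^ (9 * l * k) * (2 ^ (12 * l * l) * ∑ x ∈ T, (bad x.1 x.2).card) ≤
      2 ^ (9 * l * k) * 2 ^ (n * n) := by
    rw [← mul_assoc]
    exact (Nat.mul_le_mul_right _ h2).trans h1
  exact Nat.le_of_mul_le_mul_left h3 (by positivity)

open Classical in
theorem cdn_thm (hCRW : CRWStmt) : CDNStmt := by
  intro n l hl hn
  set bad1 : ℕ → Finset (Fin n) → Finset (Fin n) → Finset (Fin n → Fin n → Bool) := fun k A B =>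
    Finset.univ.filter fun E : Fin n → Fin n → Bool =>
      ∀ a ∈ A, (B.filter fun b => E a b = true).card < k with hbad1
  set bad2 : ℕ → Finset (Fin n) → Finset (Fin n) → Finset (Fin n → Fin n → Bool) := fun k A B =>
    Finset.univ.filter fun E : Fin n → Fin n → Bool =>
      ∀ a ∈ A, (B.filter fun b => E b a = true).card < k with hbad2
  have hsub : (Finset.univ.filter fun E : Fin n → Fin n → Bool => ¬ DenE (4 * l) E) ⊆
      (Finset.Icc (4 * l) (n / 8)).biUnion fun k =>
        (Finset.powersetCard k (Finset.univ : Finset (Fin n)) ×ˢ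
          Finset.powersetCard (8 * k) (Finset.univ : Finset (Fin n))).biUnion fun x =>
            bad1 k x.1 x.2 ∪ bad2 k x.1 x.2 := by
    intro E hE
    rw [Finset.mem_filter] at hE
    have hE2 := hE.2
    unfold DenE at hE2
    push Not at hE2
    obtain ⟨k, hk, A, B, hA, hB, hAB⟩ := hE2
    obtain ⟨A', hA', hA'c⟩ := Finset.exists_subset_card_eq hA
    obtain ⟨B', hB', hB'c⟩ := Finset.exists_subset_card_eq hB
    have hBn : B.card ≤ n := by
      simpa using Finset.card_le_univ B
    rw [Finset.mem_biUnion]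
    refine ⟨k, Finset.mem_Icc.2 ⟨hk, by omega⟩, ?_⟩
    rw [Finset.mem_biUnion]
    refine ⟨(A', B'), ?_, ?_⟩
    · rw [Finset.mem_product, Finset.mem_powersetCard, Finset.mem_powersetCard]
      exact ⟨⟨Finset.subset_univ _, hA'c⟩, ⟨Finset.subset_univ _, hB'c⟩⟩
    · rw [Finset.mem_union]
      by_cases h : ∃ a ∈ A, k ≤ (B.filter fun b => E a b = true).card
      · right
        rw [hbad2, Finset.mem_filter]
        refine ⟨Finset.mem_univ _, fun a ha => ?_⟩
        exact (Finset.card_le_card (Finset.filter_subset_filter _ hB')).trans_lt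
          (hAB h a (hA' ha))
      · left
        rw [hbad1, Finset.mem_filter]
        refine ⟨Finset.mem_univ _, fun a ha => ?_⟩
        by_contra hc
        exact h ⟨a, hA' ha, (not_lt.1 hc).trans
          (Finset.card_le_card (Finset.filter_subset_filter _ hB'))⟩
  have hcard : (Finset.univ.filter fun E : Fin n → Fin n → Bool => ¬ DenE (4 * l) E).card ≤
      ∑ k ∈ Finset.Icc (4 * l) (n / 8),
        ((∑ x ∈ Finset.powersetCard k (Finset.univ : Finset (Fin n)) ×ˢ
          Finset.powersetCard (8 * k) (Finset.univ : Finset (Fin n)), (bad1 k x.1 x.2).card) +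
        ∑ x ∈ Finset.powersetCard k (Finset.univ : Finset (Fin n)) ×ˢ
          Finset.powersetCard (8 * k) (Finset.univ : Finset (Fin n)), (bad2 k x.1 x.2).card) := by
    refine (Finset.card_le_card hsub).trans (Finset.card_biUnion_le.trans
      (Finset.sum_le_sum fun k _ => ?_))
    rw [← Finset.sum_add_distrib]
    exact Finset.card_biUnion_le.trans (Finset.sum_le_sum fun x _ => Finset.card_union_le _ _)
  calc 2 ^ (12 * l * l) *
        (Finset.univ.filter fun E : Fin n → Fin n → Bool => ¬ DenE (4 * l) E).card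
      ≤ 2 ^ (12 * l * l) * ∑ k ∈ Finset.Icc (4 * l) (n / 8),
        ((∑ x ∈ Finset.powersetCard k (Finset.univ : Finset (Fin n)) ×ˢ
          Finset.powersetCard (8 * k) (Finset.univ : Finset (Fin n)), (bad1 k x.1 x.2).card) +
        ∑ x ∈ Finset.powersetCard k (Finset.univ : Finset (Fin n)) ×ˢ
          Finset.powersetCard (8 * k) (Finset.univ : Finset (Fin n)), (bad2 k x.1 x.2).card) :=
        Nat.mul_le_mul_left _ hcard
    _ ≤ ∑ k ∈ Finset.Icc (4 * l) (n / 8), (2 ^ (n * n) + 2 ^ (n * n)) := by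
        rw [Finset.mul_sum]
        refine Finset.sum_le_sum fun k hk => ?_
        rw [mul_add]
        have hk' := (Finset.mem_Icc.1 hk).1
        exact Nat.add_le_add
          (cdn_count hk' hn (bad1 k) fun A B hA hB => (hCRW n k A B hA hB).1)
          (cdn_count hk' hn (bad2 k) fun A B hA hB => (hCRW n k A B hA hB).2)
    _ = (Finset.Icc (4 * l) (n / 8)).card * (2 ^ (n * n) + 2 ^ (n * n)) := by
        rw [Finset.sum_const, smul_eq_mul]
    _ ≤ n * (2 ^ (n * n) + 2 ^ (n * n)) := by
        refine Nat.mul_le_mul_right _ ?_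
        rw [Nat.card_Icc]
        omega
    _ = 2 * n * 2 ^ (n * n) := by ring

end Pool.DPG
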